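import Pool.Agent.U28.PG.AP2
import Pool.Agent.U28.SF.SF9

/-!
# Progressions of prime pairs, and of prime tuples, in all short intervals

Every dense subset `A` of the prime tuples of a pattern `T` (with shifts of any size) contains, for a positive proportion of the integers
`n ≤ N` and simultaneously for ALL `H` for which at least one tuple is expected in `(n, n + H]`, the right order of
first terms of `m`-term arithmetic progressions of elements of `A`, with differences at most a power of `log N`. This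
applies, for at least `c log x` even numbers `d ≤ l log x`, to the primes `p` for which `p + d` is the next prime.
-/

set_option autoImplicit false

open Finset

namespace Pool.Agent.Results.MP_a1f59e_nt.ProgressionsInAllShortIntervals

/-- the number of residue classes modulo `p` which contain elements of `T` -/
def nu (T : Finset ℕ) (p : ℕ) : ℕ := (T.image (· % p)).card

/-- the Hardy-Littlewood constant of the pattern `T` -/
noncomputable def CT (T : Finset ℕ) : ℝ :=
  ∏' p : Nat.Primes, (1 - (nu T p : ℝ) / ((p : ℕ) : ℝ)) / (1 - 1 / ((p : ℕ) : ℝ)) ^ T.card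

open Classical in
/-- the integers `1 ≤ n ≤ N` for which all `n + t`, `t ∈ T`, are prime -/
noncomputable def Tuples (T : Finset ℕ) (N : ℕ) : Finset ℕ := (Icc 1 N).filter (fun n => ∀ t ∈ T, (n + t).Prime)

open Classical in
/-- the primes `p ≤ x` for which `p + d` is the next prime -/
noncomputable def Gaps (d x : ℕ) : Finset ℕ :=
  (Icc 1 x).filter (fun p => p.Prime ∧ (p + d).Prime ∧ ∀ q, p < q → q < p + d → ¬ q.Prime)

/-- `n` is the first of `m` terms of an arithmetic progression in `A` with difference between `1` and `D` -/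
def FirstTerm (m : ℕ) (D : ℝ) (A : Finset ℕ) (n : ℕ) : Prop :=
  ∃ d : ℕ, 1 ≤ d ∧ (d : ℝ) ≤ D ∧ ∀ j < m, n + j * d ∈ A

open Classical in
/-- At least `κ N` of the integers `0 ≤ n ≤ N` are such that for ALL natural numbers `H ≤ N` with `μ H ≥ 1` the
interval `(n, n + H]` contains at least `κ μ H` integers with the property `P`. -/
def Everywhere (κ μ : ℝ) (N : ℕ) (P : ℕ → Prop) : Prop :=
  κ * N ≤ (((range (N + 1)).filter (fun n => ∀ H : ℕ, 1 ≤ μ * H → H ≤ N →
    κ * (μ * H) ≤ (((Ioc n (n + H)).filter P).card : ℝ))).card : ℝ)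

open Classical in
/-- **Progressions in all short intervals.**

1. The product `CT T` converges, and is positive if `T` misses a residue class modulo every prime. For all `l ≥ 1`,
all `m` and `δ > 0` there are `κ > 0` and `B` such that for all large `N`, ALL sets `T` of `l` natural numbers (of any
size, also much larger than `N`) with `CT T > 0`, and ALL sets `A ⊆ Tuples T N` with `|A| ≥ δ CT(T) N / (log N) ^ l` we
have `Everywhere κ (CT(T) / (log N) ^ l) N (FirstTerm m ((log N) ^ B) A)`.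
2. There are `l, c > 0` such that for all `m ≥ 1` there are `κ > 0` and `B` such that for all large `x` at least
`c log x` even numbers `d ≤ l log x` satisfy
`Everywhere κ (CT({0, d}) / (log x) ^ 2) x (FirstTerm m ((log x) ^ B) (Gaps d x))`. -/
theorem result :
    ((∀ T : Finset ℕ,
      HasProd (fun p : Nat.Primes => (1 - (nu T p : ℝ) / ((p : ℕ) : ℝ)) / (1 - 1 / ((p : ℕ) : ℝ)) ^ T.card) (CT T) ∧
        ((∀ p : ℕ, p.Prime → nu T p < p) → 0 < CT T)) ∧
      ∀ l m : ℕ, 1 ≤ l → ∀ δ : ℝ, 0 < δ → ∃ κ : ℝ, 0 < κ ∧ ∃ B N₀ : ℕ, ∀ N : ℕ, N₀ ≤ N →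
        ∀ T : Finset ℕ, T.card = l → 0 < CT T →
          ∀ A ⊆ Tuples T N, δ * (CT T * (N / Real.log N ^ l)) ≤ (A.card : ℝ) →
            Everywhere κ (CT T / Real.log N ^ l) N (FirstTerm m (Real.log N ^ B) A)) ∧
    ∃ l c : ℝ, 0 < l ∧ 0 < c ∧ ∀ m : ℕ, 1 ≤ m → ∃ κ : ℝ, 0 < κ ∧ ∃ B x₀ : ℕ, ∀ x : ℕ, x₀ ≤ x →
      c * Real.log x ≤ (((Icc 1 ⌊l * Real.log x⌋₊).filter (fun d => 2 ∣ d ∧
        Everywhere κ (CT {0, d} / Real.log x ^ 2) x (FirstTerm m (Real.log x ^ B) (Gaps d x)))).card : ℝ) := by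
  refine ⟨⟨fun T => ⟨Pool.Agent.H387R2.Uni.CT_hasProd T, fun h => Pool.Agent.U28.PG.CT_pos h⟩,
    fun l m hl δ hδ => ?_⟩, ?_⟩
  · obtain ⟨κ, hκ, B, h⟩ := Pool.Agent.U28.SF.tuples_all l m hl δ hδ
    obtain ⟨N₀, hN₀⟩ := Filter.eventually_atTop.1 h
    refine ⟨κ, hκ, B, N₀, fun N hN T hT hCT A hA hAc => ?_⟩
    refine hN₀ N hN T hT hCT A (fun n hn => ?_) hAc
    have h1 := hA hn
    unfold Tuples at h1
    rw [mem_filter, mem_Icc] at h1
    exact ⟨h1.1.1, h1.1.2, h1.2⟩
  · obtain ⟨l, c, hl, hc, h⟩ := Pool.Agent.U28.PG.gap_progressions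
    refine ⟨l, c, hl, hc, fun m hm => ?_⟩
    obtain ⟨κ, hκ, B, h1⟩ := h m hm
    obtain ⟨x₀, hx₀⟩ := Filter.eventually_atTop.1 h1
    refine ⟨κ, hκ, B, x₀, fun x hx => (hx₀ x hx).trans ?_⟩
    rw [Nat.cast_le]
    apply card_le_card
    intro d hd
    rw [mem_filter] at hd ⊢
    have e : Gaps d x = Pool.Agent.U28.PG.GapsTo d x := by
      unfold Gaps Pool.Agent.U28.PG.GapsTo
      ext p
      simp only [mem_filter]
      rfl
    refine ⟨hd.1, hd.2.1, ?_⟩
    rw [e]
    exact hd.2.2

end Pool.Agent.Results.MP_a1f59e_nt.ProgressionsInAllShortIntervals
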