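import Mathlib
import Pool.Agent.U288.SP.Cl6
import Pool.Agent.X34.E.E4

/-!
# Progressions of every length of primes `p` with next prime `p + d`: shifted primes `d`

The question is whether there are arbitrarily long arithmetic progressions of primes `p` such that `p + 2` is prime.
Here `2 = 3 - 1` is replaced by a shifted prime `d = p' - 1` (or `d = p' + 1`): for a POSITIVE PROPORTION of the
primes `p' ≤ X` the answer is yes for `d = p' - 1` and every length `l` (and likewise for a positive proportion of the
numbers `d = p' + 1`), even with `p + d` the prime FOLLOWING `p`. More precisely, for every length `l` there is `C` such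
that for infinitely many `N` there is a difference `1 ≤ D ≤ (log N) ^ C` for which at least `N / (log N) ^ C` of the
`n ≤ N` are such that each term `p` of the progression `n, n + D, ..., n + (l - 1) D` is a prime, and the next
prime is `p + d`. Moreover, for every `R`, with `C` and `D` depending also on `R`, the pattern of all the primes at
distance at most `R` is the same at all the terms `p` of all these progressions.

In residue classes: if `a` is coprime to `q`, then the same is true, for a positive proportion (depending on `q`) of the
primes `p'`, with all the primes `p ≡ a` modulo `q` and all the primes at distance at most `R` from `p` congruent to `a`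
modulo `q` as well.

What is new. The library (starting files, `X34.E`) contains a theorem of Maynard-Tao type: every large set `S` of integers
contains SOME two elements whose distance `d` has this property. It gives nothing for a set of distances `d` of density
zero. In the results of the starting files for this problem the proportion is one of all multiples of a number, which
does not say anything about shifted primes. Own mathematics (`Pool.Agent.U288.SP`): the lower bound of the right order
for the number of the sets of `K` integers up to `X` all of whose distances are shifted primes, the upper bound of the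
right order for the number of PAIRS of such sets which have two given elements in common (Selberg sieve for systems of
linear forms, averaged), and the passage from sets to distances by the inequality of Cauchy and Schwarz (`Cl1.lean`,
`Cl3.lean`, `Cl6.lean`).
-/

set_option autoImplicit false

namespace Pool.Agent.Results.MP_a1f59e_nt.ShiftedPrimeGaps

open Filter Finset

/-- `n ≡ a` modulo `q`, and the primes at distance at most `R` from `n` are exactly the numbers `n + z`, `z ∈ P`,
`|z| ≤ R` -/
def Pattern (q : ℕ) (a : ℤ) (P : Finset ℤ) (R n : ℕ) : Prop :=
  (n : ℤ) ≡ a [ZMOD q] ∧ ∀ m : ℕ, |(m : ℤ) - (n : ℤ)| ≤ R → (m.Prime ↔ (m : ℤ) - (n : ℤ) ∈ P)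

/-- There is a finite set `P` of multiples of `q` which contains `0` and `d`, but no number strictly between `0` and
`d`, such that for all `l` and `R` there is `C` such that for infinitely many `N` there is `1 ≤ D ≤ (log N) ^ C` such
that for at least `N / (log N) ^ C` of the `1 ≤ n ≤ N` all the terms `m` of the progression
`n, n + D, ..., n + (l - 1) D` are `≡ a` modulo `q` and the primes at distance at most `R` from `m` are exactly the
`m + z`, `z ∈ P`. In particular `m` is a prime, and if `R ≥ d`, then the next prime is `m + d`. -/
def LongProgressions (q : ℕ) (a : ℤ) (d : ℕ) : Prop :=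
  ∃ P : Finset ℤ, 0 ∈ P ∧ (d : ℤ) ∈ P ∧ (∀ z ∈ P, z ≤ 0 ∨ (d : ℤ) ≤ z) ∧ (∀ z ∈ P, (q : ℤ) ∣ z) ∧
    ∀ l R : ℕ, ∃ C : ℕ, ∃ᶠ N : ℕ in atTop, ∃ D : ℕ, 1 ≤ D ∧ (D : ℝ) ≤ Real.log N ^ C ∧
      (N : ℝ) / Real.log N ^ C ≤ (Set.ncard {n : ℕ | 1 ≤ n ∧ n ≤ N ∧ ∀ j < l, Pattern q a P R (n + j * D)} : ℝ)

open Classical in
/-- **For a positive proportion of the shifted primes `d` up to `X` there are progressions of every length of primes `p`
with next prime `p + d`.** -/
theorem result (q : ℕ) (hq : 0 < q) (a : ℤ) (ha : IsCoprime a (q : ℤ)) (σ : ℤ) (hσ : σ = 1 ∨ σ = -1) :
    ∃ c : ℝ, 0 < c ∧ ∀ᶠ X : ℕ in atTop, c * ((X : ℝ) / Real.log X) ≤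
      (((Icc 1 X).filter (fun d : ℕ => ((d : ℤ) + σ).toNat.Prime ∧ LongProgressions q a d)).card : ℝ) :=
  Pool.Agent.U288.SP.gap_shifts Pool.Agent.X34.E.dhl45R q hq a ha σ hσ

end Pool.Agent.Results.MP_a1f59e_nt.ShiftedPrimeGaps
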