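import Pool.Agent.U455.AP

set_option autoImplicit false

/-!
# Every large multiple of 12 is a sum of three differences with progressions of every length

Call an even number `d` good if for every length `l` there are (narrow) arithmetic progressions of `l` primes `p` with
all `p + d` prime; the question is whether `2` is good. Every large multiple of `12` is a sum of three good numbers, two
of them bounded, and every multiple of `12` is `d₁ + d₂ - d₃` with good numbers larger than any given bound; the same
with multiples of `2 b` and of `12 b`.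

Proof: two of any four classes of linear forms are hit by primes, with all patterns along narrow progressions
(`Pool.Agent.Y827.HN.patR`, starting files). So any four admissible classes of shifts contain two shifts of different
classes with a good difference (`Pool.Agent.U455.AP.c4`), and the theorem on such sets
(`Pool.Agent.U455.TJ.all`), with classes built from good numbers, `A₁`, `A₂`, `x - A₂`, `x - A₁`.
-/

namespace Pool.Agent.Results.MP_a1f59e_nt.ThreeDifferences

open Finset Filter

open Classical in
/-- the number of the `1 ≤ m ≤ 2 x` such that for all `j < l` the numbers `p = m + j D` and `p + d` are primes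
and all primes `q` at distance at most `R` from `p` are congruent to `p` modulo `2 b` -/
noncomputable def progressions (b d l D R x : ℕ) : ℕ :=
  ((Icc 1 (2 * x)).filter (fun m : ℕ => ∀ j < l, (m + j * D).Prime ∧ (m + j * D + d).Prime ∧
    ∀ q : ℕ, q.Prime → |(q : ℤ) - ((m + j * D : ℕ) : ℤ)| ≤ R →
      ((2 * b : ℕ) : ℤ) ∣ (q : ℤ) - ((m + j * D : ℕ) : ℤ))).card

/-- for all `l` and `R` there is `C` such that for arbitrarily large `x` there is `1 ≤ D ≤ (log x) ^ C` with at
least `x / (log x) ^ C` progressions of length `l` and difference `D` below -/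
def Good (b d : ℕ) : Prop := ∀ l R : ℕ, ∃ C : ℕ, ∃ᶠ x : ℕ in atTop, ∃ D : ℕ, 1 ≤ D ∧
    (D : ℝ) ≤ Real.log x ^ C ∧ (x : ℝ) / Real.log x ^ C ≤ (progressions b d l D R x : ℝ)

theorem result (b : ℕ) (hb : 1 ≤ b) :
    (∀ R : ℕ, ∃ B L : ℕ, ∀ x : ℕ, L ≤ x → 6 ∣ x → ∃ k₁ k₂ k₃,
      Good b (2 * b * k₁) ∧ Good b (2 * b * k₂) ∧ Good b (2 * b * k₃) ∧
      (R < k₁ ∧ k₁ ≤ B) ∧ (R < k₂ ∧ k₂ ≤ B) ∧ R < k₃ ∧ x = k₁ + k₂ + k₃) ∧
    ∀ x : ℕ, 6 ∣ x → ∀ R : ℕ, ∃ k₁ k₂ k₃,
      Good b (2 * b * k₁) ∧ Good b (2 * b * k₂) ∧ Good b (2 * b * k₃) ∧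
      R < k₁ ∧ R < k₂ ∧ R < k₃ ∧ x + k₃ = k₁ + k₂ :=
  Pool.Agent.U455.AP.three b hb

end Pool.Agent.Results.MP_a1f59e_nt.ThreeDifferences
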