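import Mathlib
import Pool.Agent.U839.Tp.Fin

set_option autoImplicit false

/-!
# The longest arithmetic progression of twins, in random models of the primes

The question is whether there are arithmetic progressions `a, a + b, ..., a + (l-1) b` of every length `l` all of whose
terms are first members of twin primes. We study it in the random models of Cramér and Granville. Let `T` be
nondecreasing. Only the integers `n` without prime factors `p ≤ T(n)` can be chosen, independently, with probability
`∏_{p ≤ T(n)} (1 - 1/p)⁻¹ / log n`. (Cramér's model is `T = 0`, Granville's has `T(n) = log n`.) Let `L(X)` be the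
largest number of terms of a progression up to `X` such that `m` and `m + 2` are chosen for each term `m`. We prove that
almost surely

(1) `L(X) ~ log X / log log X`, if `T(n) ≤ (log n)^(1 + o(1))`;

(2) `c ≤ L(X) log log X / log X ≤ 1 + o(1)` for large `X`, if `T(n) ≤ (log n)^θ`, where `θ > 0` is arbitrary and
`c = c(θ) > 0`; and there are infinitely many progressions of every length, so the answer to the question is yes.

Proof. Upper bound: first moment over the last term and the difference. Lower bound: let the difference and the middle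
elements `m + 1` of the pairs be multiples of `∏_{p ≤ δ log X} p`. The primes between `δ log X` and `T` are treated, for
each such difference, by Brun's pure sieve of dimension `2 L(X)`, which grows with `X`. This gives `X^(2 - δ')` candidates.
They are not independent, since many of them share elements. A second moment works: for a given progression, all but
`O(L(X)^4)` of the others share at most one pair with it, and a shared pair costs a power of `log X` only.
-/

open MeasureTheory ProbabilityTheory Filter Topology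

namespace Pool.Agent.Results.MP_a1f59e_nt.TwinProgressionsInRandomModels

open Classical in
/-- `∏_{p ≤ T(n)} (1 - 1/p)⁻¹` if `n` has no prime factor `p ≤ T(n)`, and `0` otherwise. -/
noncomputable def weight (T : ℕ → ℕ) (n : ℕ) : ℝ :=
  if ∀ p, p.Prime → p ≤ T n → ¬ p ∣ n then
    ∏ p ∈ (Finset.Icc 1 (T n)).filter Nat.Prime, (1 - 1 / (p : ℝ))⁻¹ else 0

/-- The random model: `E n` is the event that `n` is chosen; these events are independent and have
probability `weight T n / log n` (if this is at most `1`, which is the case for all large `n` here). -/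
structure Model {Ω : Type*} [MeasurableSpace Ω] (μ : Measure Ω) (T : ℕ → ℕ) (E : ℕ → Set Ω) : Prop where
  meas : ∀ n, MeasurableSet (E n)
  indep : iIndepSet E μ
  law : ∀ n : ℕ, μ.real (E n) = min 1 (weight T n / Real.log n)

/-- `a + k b` and `a + k b + 2` are in `Q` for `k = 0, ..., l - 1`. -/
def Twins (Q : Set ℕ) (l a b : ℕ) : Prop := ∀ k < l, a + k * b ∈ Q ∧ a + k * b + 2 ∈ Q

/-- The largest number `l` of terms of a progression `a, a + b, ..., a + (l-1) b ≤ X` (`a, b ≥ 1`) of first members
of pairs `m, m + 2` in `Q`. -/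
noncomputable def L (Q : Set ℕ) (X : ℕ) : ℕ :=
  sSup {l | ∃ a b, 1 ≤ a ∧ 1 ≤ b ∧ a + (l - 1) * b ≤ X ∧ Twins Q l a b}

theorem toSieved {Ω : Type*} [MeasurableSpace Ω] {μ : Measure Ω} {T : ℕ → ℕ} {E : ℕ → Set Ω}
    (h : Model μ T E) : Pool.Agent.U839.Sv.Sieved μ E T :=
  ⟨h.meas, h.indep, h.law⟩

/-- (1) and (2). -/
theorem result.{u} :
    (∀ T : ℕ → ℕ, Monotone T → (∀ δ : ℝ, 0 < δ → ∀ᶠ n : ℕ in atTop, (T n : ℝ) ≤ (Real.log n) ^ (1 + δ)) →
      ∀ (Ω : Type u) [MeasurableSpace Ω] (μ : Measure Ω) [IsProbabilityMeasure μ] (E : ℕ → Set Ω),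
      Model μ T E → ∀ᵐ ω ∂μ,
        Tendsto (fun X : ℕ => (L {n | ω ∈ E n} X : ℝ) * Real.log (Real.log X) / Real.log X) atTop (𝓝 1)) ∧
    (∀ θ : ℝ, 0 < θ → ∃ c : ℝ, 0 < c ∧ ∀ T : ℕ → ℕ, Monotone T →
      (∀ᶠ n : ℕ in atTop, (T n : ℝ) ≤ (Real.log n) ^ θ) →
      ∀ (Ω : Type u) [MeasurableSpace Ω] (μ : Measure Ω) [IsProbabilityMeasure μ] (E : ℕ → Set Ω),
      Model μ T E → ∀ᵐ ω ∂μ,
        (∀ᶠ X : ℕ in atTop, c ≤ (L {n | ω ∈ E n} X : ℝ) * Real.log (Real.log X) / Real.log X) ∧
        (∀ ε : ℝ, 0 < ε → ∀ᶠ X : ℕ in atTop,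
          (L {n | ω ∈ E n} X : ℝ) * Real.log (Real.log X) / Real.log X ≤ 1 + ε) ∧
        ∀ l : ℕ, {a | ∃ b, 1 ≤ b ∧ Twins {n | ω ∈ E n} l a b}.Infinite) := by
  refine ⟨fun T hT hT1 Ω _ μ _ E hE => ?_, fun θ hθ => ?_⟩
  · exact Pool.Agent.U839.Tp.main1 T hT hT1 (toSieved hE)
  · obtain ⟨c, hc, h⟩ := Pool.Agent.U839.Tp.main2 θ hθ
    exact ⟨c, hc, fun T hT hTθ Ω _ μ _ E hE => h T hT hTθ Ω μ E (toSieved hE)⟩

end Pool.Agent.Results.MP_a1f59e_nt.TwinProgressionsInRandomModels
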